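import Pool.Agent.KS6_72C.Torus

/-!
# MP_3c8d56_co: both implications fail for every exponent

Odd exponents: the torus graphs `G(p,q)` of the library (file `TorusExamples`, copied to
`Pool/Agent/KS6_72C/Torus.lean`), for every number `d ≥ 2` of sheets.

Even exponents (new): for a triangle-free graph without isolated vertices and components `K₂` the
second clique graph is the graph without its vertices of degree one (`kk_iso`).  The combs
`X(R, σ)` consist of a rail `ℤ` for every element of an abelian group `R`, with a tooth of length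
`max j 0` at the position `j` of every rail and with rungs between the rails `r` and `r + σ j` at
position `j`; so `k² X(R, σ) ≅ X(R, σ(· + 1))`.  For `R = ℤ/2` and for the lamplighter group of
rails (`R` the finite subsets of `ℤ`, `σ j = {j}`) this is isomorphic to `X(R, σ)`; for a graph
with four rails between these two it is not, for any even exponent.
-/

namespace Pool.Agent.Results.MP_3c8d56_co.EveryExponent

open Pool.Agent.KS6_72C

/-! ### The clique operator respects isomorphisms -/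

lemma iso_rfl (A : Gr) : A.Iso A := ⟨SimpleGraph.Iso.refl⟩
lemma iso_symm {A B : Gr} (h : A.Iso B) : B.Iso A := h.elim fun e => ⟨e.symm⟩
lemma iso_trans {A B C : Gr} (h : A.Iso B) (h' : B.Iso C) : A.Iso C :=
  h.elim fun e => h'.elim fun e' => ⟨e'.comp e⟩

lemma clique_image {A B : Gr} (e : A.G ≃g B.G) {S : Set A.V} (hS : A.G.IsClique S) :
    B.G.IsClique (e '' S) := by
  rintro _ ⟨a, ha, rfl⟩ _ ⟨b, hb, rfl⟩ hab
  exact e.map_rel_iff.mpr (hS ha hb fun h => hab (by rw [h]))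

lemma maximal_image {A B : Gr} (e : A.G ≃g B.G) {S : Set A.V} (hS : Maximal A.G.IsClique S) :
    Maximal B.G.IsClique (e '' S) := by
  refine ⟨clique_image e hS.1, ?_⟩
  intro T hT hle
  have h1 : A.G.IsClique (e.symm '' T) := clique_image e.symm hT
  have h2 : S ⊆ e.symm '' T := by
    intro s hs
    exact ⟨e s, hle ⟨s, hs, rfl⟩, e.symm_apply_apply s⟩
  have h3 := hS.2 h1 h2
  intro t ht
  exact ⟨e.symm t, h3 ⟨t, ht, rfl⟩, e.apply_symm_apply t⟩

lemma iso_k {A B : Gr} (h : A.Iso B) : A.k.Iso B.k := by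
  obtain ⟨e⟩ := h
  let Φ : A.k.V → B.k.V := fun S => ⟨e '' S.1, maximal_image e S.2⟩
  let Ψ : B.k.V → A.k.V := fun S => ⟨e.symm '' S.1, maximal_image e.symm S.2⟩
  have h1 : ∀ S, Ψ (Φ S) = S := by
    intro S
    apply Subtype.ext
    change e.symm '' (e '' S.1) = S.1
    rw [Set.image_image]
    simp
  have h2 : ∀ S, Φ (Ψ S) = S := by
    intro S
    apply Subtype.ext
    change e '' (e.symm '' S.1) = S.1
    rw [Set.image_image]
    simp
  have hinj : Function.Injective Φ := Function.LeftInverse.injective h1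
  refine ⟨⟨⟨Φ, Ψ, h1, h2⟩, ?_⟩⟩
  intro S T
  change (Φ S ≠ Φ T ∧ (e '' S.1 ∩ e '' T.1).Nonempty) ↔ (S ≠ T ∧ (S.1 ∩ T.1).Nonempty)
  rw [← Set.image_inter e.injective, Set.image_nonempty]
  constructor
  · rintro ⟨h, h'⟩
    exact ⟨fun h'' => h (by rw [h'']), h'⟩
  · rintro ⟨h, h'⟩
    exact ⟨fun h'' => h (hinj h''), h'⟩

lemma iso_iter {A B : Gr} (h : A.Iso B) (n : ℕ) : (Gr.k^[n] A).Iso (Gr.k^[n] B) := by
  induction n with
  | zero => exact h
  | succ n ih =>
    rw [Function.iterate_succ_apply', Function.iterate_succ_apply']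
    exact iso_k ih

/-! ### The second clique graph of a triangle-free graph -/

section prune

/-- `v` has at least two neighbours. -/
def Two (A : Gr) (v : A.V) : Prop := ∃ a b, a ≠ b ∧ A.G.Adj v a ∧ A.G.Adj v b

/-- The graph without its vertices of degree at most one. -/
def prune (A : Gr) : Gr where
  V := {v : A.V // Two A v}
  G := A.G.comap Subtype.val

variable {A : Gr} [hne : Nonempty A.V]
  (tf : ∀ a b c : A.V, A.G.Adj a b → A.G.Adj b c → A.G.Adj a c → False)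
  (iso : ∀ a : A.V, ∃ b, A.G.Adj a b)
  (nk : ∀ a b : A.V, A.G.Adj a b → Two A a ∨ Two A b)

include hne tf iso in
lemma max_clique_iff (S : Set A.V) :
    Maximal A.G.IsClique S ↔ ∃ a b, A.G.Adj a b ∧ S = {a, b} := by
  constructor
  · intro hS
    have h0 : S.Nonempty := by
      by_contra h0
      rw [Set.not_nonempty_iff_eq_empty] at h0
      obtain ⟨v⟩ := id hne
      have : ({v} : Set A.V) ⊆ S := hS.2 (Set.pairwise_singleton _ _) (by rw [h0]; exact Set.empty_subset _)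
      rw [h0] at this
      exact this rfl
    obtain ⟨v, hv⟩ := h0
    have h1 : ∃ w ∈ S, w ≠ v := by
      by_contra h1
      push Not at h1
      obtain ⟨b, hb⟩ := iso v
      have hc : A.G.IsClique {v, b} := by
        rw [SimpleGraph.isClique_pair]; exact fun _ => hb
      have h2 : ({v, b} : Set A.V) ⊆ S := hS.2 hc (fun s hs => Or.inl (h1 s hs))
      exact hb.ne (h1 b (h2 (by simp))).symm
    obtain ⟨w, hw, hwv⟩ := h1
    have hvw : A.G.Adj v w := hS.1 hv hw hwv.symm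
    refine ⟨v, w, hvw, ?_⟩
    apply Set.Subset.antisymm
    · intro s hs
      by_contra h3
      simp only [Set.mem_insert_iff, Set.mem_singleton_iff, not_or] at h3
      exact tf v w s hvw (hS.1 hw hs (Ne.symm h3.2)) (hS.1 hv hs (Ne.symm h3.1))
    · rintro s (rfl | rfl)
      · exact hv
      · exact hw
  · rintro ⟨a, b, hab, rfl⟩
    refine ⟨by rw [SimpleGraph.isClique_pair]; exact fun _ => hab, ?_⟩
    intro T hT hle s hs
    by_contra h3
    simp only [Set.mem_insert_iff, Set.mem_singleton_iff, not_or] at h3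
    exact tf a b s hab (hT (hle (by simp)) hs (Ne.symm h3.2)) (hT (hle (by simp)) hs (Ne.symm h3.1))

/-- the star of a vertex in the clique graph -/
def star' (A : Gr) (v : A.V) : Set A.k.V := {S | v ∈ S.1}

omit hne in
lemma star_clique (v : A.V) : A.k.G.IsClique (star' A v) := by
  intro S hS T hT hST
  exact ⟨hST, ⟨v, hS, hT⟩⟩

include hne tf iso in
lemma edge_mem {a b : A.V} (h : A.G.Adj a b) : ∃ S : A.k.V, S.1 = {a, b} :=
  ⟨⟨{a, b}, (max_clique_iff tf iso _).mpr ⟨a, b, h, rfl⟩⟩, rfl⟩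

include hne tf iso in
lemma star_maximal {v : A.V} (hv : Two A v) : Maximal A.k.G.IsClique (star' A v) := by
  refine ⟨star_clique v, ?_⟩
  intro T hT hle F hF
  obtain ⟨a, b, hab, ha, hb⟩ := hv
  obtain ⟨Sa, hSa⟩ := edge_mem tf iso ha
  obtain ⟨Sb, hSb⟩ := edge_mem tf iso hb
  have h1 : Sa ∈ T := hle (by change v ∈ Sa.1; rw [hSa]; simp)
  have h2 : Sb ∈ T := hle (by change v ∈ Sb.1; rw [hSb]; simp)
  by_contra hvF
  have hvF : v ∉ F.1 := hvF
  have key : ∀ (c : A.V) (S : A.k.V), S.1 = {v, c} → S ∈ T → c ∈ F.1 := by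
    intro c S hS hST
    have hne' : S ≠ F := by
      rintro rfl
      exact hvF (by rw [hS]; simp)
    obtain ⟨-, ⟨x, hx1, hx2⟩⟩ := hT hST hF hne'
    rw [hS] at hx1
    rcases hx1 with rfl | hx1
    · exact absurd hx2 hvF
    · rw [Set.mem_singleton_iff] at hx1
      rw [← hx1]; exact hx2
  have ha' := key a Sa hSa h1
  have hb' := key b Sb hSb h2
  exact tf v a b ha (F.2.1 ha' hb' hab) hb

include hne tf iso nk in
lemma max_kclique {T : Set A.k.V} (hT : Maximal A.k.G.IsClique T) :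
    ∃ v, Two A v ∧ T = star' A v := by
  have h0 : T.Nonempty := by
    by_contra h0
    rw [Set.not_nonempty_iff_eq_empty] at h0
    obtain ⟨v⟩ := id hne
    obtain ⟨b, hb⟩ := iso v
    obtain ⟨S, hS⟩ := edge_mem tf iso hb
    have : ({S} : Set A.k.V) ⊆ T := hT.2 (Set.pairwise_singleton _ _) (by rw [h0]; exact Set.empty_subset _)
    rw [h0] at this
    exact this rfl
  obtain ⟨E, hE⟩ := h0
  obtain ⟨a, b, hab, hE'⟩ := (max_clique_iff tf iso _).mp E.2
  have h1 : ∃ v, ∀ F ∈ T, v ∈ F.1 := by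
    by_contra h1
    push Not at h1
    obtain ⟨F, hF, haF⟩ := h1 a
    obtain ⟨G, hG, hbG⟩ := h1 b
    have hbF : b ∈ F.1 := by
      have hne' : E ≠ F := by rintro rfl; exact haF (by rw [hE']; simp)
      obtain ⟨-, ⟨x, hx1, hx2⟩⟩ := hT.1 hE hF hne'
      rw [hE'] at hx1
      rcases hx1 with rfl | hx1
      · exact absurd hx2 haF
      · rw [Set.mem_singleton_iff] at hx1; rw [← hx1]; exact hx2
    have haG : a ∈ G.1 := by
      have hne' : E ≠ G := by rintro rfl; exact hbG (by rw [hE']; simp)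
      obtain ⟨-, ⟨x, hx1, hx2⟩⟩ := hT.1 hE hG hne'
      rw [hE'] at hx1
      rcases hx1 with rfl | hx1
      · exact hx2
      · rw [Set.mem_singleton_iff] at hx1; rw [hx1] at hx2; exact absurd hx2 hbG
    have hne' : F ≠ G := by rintro rfl; exact haF haG
    obtain ⟨-, ⟨x, hx1, hx2⟩⟩ := hT.1 hF hG hne'
    have hxa : a ≠ x := by rintro rfl; exact haF hx1
    have hxb : b ≠ x := by rintro rfl; exact hbG hx2
    exact tf a b x hab (F.2.1 hbF hx1 hxb) (G.2.1 haG hx2 hxa)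
  obtain ⟨v, hv⟩ := h1
  have h2 : ∃ w, Two A w ∧ T ⊆ star' A w := by
    by_cases hv2 : Two A v
    · exact ⟨v, hv2, hv⟩
    · obtain ⟨w, hw⟩ := iso v
      have hw2 : Two A w := (nk v w hw).resolve_left hv2
      refine ⟨w, hw2, ?_⟩
      intro F hF
      change w ∈ F.1
      have hvF := hv F hF
      obtain ⟨c, d, hcd, hF'⟩ := (max_clique_iff tf iso _).mp F.2
      rw [hF'] at hvF ⊢
      rcases hvF with rfl | hvF
      · by_contra hw'
        simp only [Set.mem_insert_iff, Set.mem_singleton_iff, not_or] at hw'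
        exact hv2 ⟨w, d, hw'.2, hw, hcd⟩
      · rw [Set.mem_singleton_iff] at hvF
        subst hvF
        by_contra hw'
        simp only [Set.mem_insert_iff, Set.mem_singleton_iff, not_or] at hw'
        exact hv2 ⟨w, c, hw'.1, hw, hcd.symm⟩
  obtain ⟨w, hw, hTw⟩ := h2
  exact ⟨w, hw, Set.Subset.antisymm hTw (hT.2 (star_clique w) hTw)⟩

include hne tf iso in
lemma star_inj {v w : A.V} (hv : Two A v) (h : star' A v = star' A w) : v = w := by
  obtain ⟨a, b, hab, ha, hb⟩ := hv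
  obtain ⟨Sa, hSa⟩ := edge_mem tf iso ha
  obtain ⟨Sb, hSb⟩ := edge_mem tf iso hb
  have h1 : Sa ∈ star' A w := by rw [← h]; change v ∈ Sa.1; rw [hSa]; simp
  have h2 : Sb ∈ star' A w := by rw [← h]; change v ∈ Sb.1; rw [hSb]; simp
  change w ∈ Sa.1 at h1
  change w ∈ Sb.1 at h2
  rw [hSa] at h1
  rw [hSb] at h2
  simp only [Set.mem_insert_iff, Set.mem_singleton_iff] at h1 h2
  rcases h1 with h1 | h1
  · exact h1.symm
  · rcases h2 with h2 | h2
    · exact h2.symm
    · exact absurd (h1.symm.trans h2) hab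

include hne tf iso nk in
/-- For a triangle-free graph without isolated vertices and components `K₂`, the second clique
graph is the graph without its vertices of degree one. -/
theorem kk_iso : (prune A).Iso A.k.k := by
  let Φ : (prune A).V → A.k.k.V := fun v => ⟨star' A v.1, star_maximal tf iso v.2⟩
  have hinj : Function.Injective Φ := by
    intro v w h
    exact Subtype.ext (star_inj tf iso v.2 (congrArg Subtype.val h))
  have hbij : Function.Bijective Φ := by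
    refine ⟨hinj, ?_⟩
    rintro ⟨T, hT⟩
    obtain ⟨v, hv, rfl⟩ := max_kclique tf iso nk hT
    exact ⟨⟨v, hv⟩, rfl⟩
  refine ⟨⟨Equiv.ofBijective Φ hbij, ?_⟩⟩
  intro v w
  change (Φ v ≠ Φ w ∧ (star' A v.1 ∩ star' A w.1).Nonempty) ↔ A.G.Adj v.1 w.1
  constructor
  · rintro ⟨h1, ⟨S, hS1, hS2⟩⟩
    exact S.2.1 hS1 hS2 fun h => h1 (by rw [Subtype.ext h])
  · intro h
    refine ⟨fun h' => h.ne (congrArg Subtype.val (hinj h')), ?_⟩
    obtain ⟨S, hS⟩ := edge_mem tf iso h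
    exact ⟨S, by change v.1 ∈ S.1; rw [hS]; simp, by change w.1 ∈ S.1; rw [hS]; simp⟩

end prune

/-! ### The combs `X(R, σ)` -/

/-- The vertices of the comb: the vertex at height `i` of the tooth at position `j` of the rail
`r`; the tooth at position `j` has `max j 0` vertices besides its foot. -/
@[ext] structure Vt (R : Type) where
  j : ℤ
  i : ℕ
  r : R
  h : (i : ℤ) ≤ max j 0

section comb

variable {R : Type} [AddCommGroup R]

/-- Adjacency in the comb: along the rails, along the teeth, and the rungs, which join the rails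
`r` and `r + σ j` at position `j`. -/
def cadj (σ : ℤ → R) (u v : Vt R) : Prop :=
  (u.i = 0 ∧ v.i = 0 ∧ u.r = v.r ∧ (v.j = u.j + 1 ∨ u.j = v.j + 1)) ∨
  (u.j = v.j ∧ u.r = v.r ∧ (v.i = u.i + 1 ∨ u.i = v.i + 1)) ∨
  (u.i = 0 ∧ v.i = 0 ∧ u.j = v.j ∧ v.r = u.r + σ u.j)

/-- The admissible rung functions. -/
structure Ok (σ : ℤ → R) : Prop where
  ne : ∀ j, σ j ≠ 0
  two : ∀ j, σ j + σ j = 0

/-- The comb `X(R, σ)`. -/
def X (σ : ℤ → R) (hσ : Ok σ) : Gr where
  V := Vt R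
  G :=
    { Adj := cadj σ
      symm := ⟨by
        rintro u v (⟨h1, h2, h3, h4⟩ | ⟨h1, h2, h3⟩ | ⟨h1, h2, h3, h4⟩)
        · exact Or.inl ⟨h2, h1, h3.symm, h4.symm⟩
        · exact Or.inr (Or.inl ⟨h1.symm, h2.symm, h3.symm⟩)
        · refine Or.inr (Or.inr ⟨h2, h1, h3.symm, ?_⟩)
          rw [h4, ← h3, add_assoc, hσ.two, add_zero]⟩
      loopless := ⟨by
        rintro u (⟨h1, h2, h3, h4⟩ | ⟨h1, h2, h3⟩ | ⟨h1, h2, h3, h4⟩)
        · omega
        · omega
        · exact hσ.ne _ (left_eq_add.mp h4)⟩ }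

variable {σ : ℤ → R} (hσ : Ok σ)

lemma X_tf (a b c : (X σ hσ).V) (h1 : (X σ hσ).G.Adj a b) (h2 : (X σ hσ).G.Adj b c)
    (h3 : (X σ hσ).G.Adj a c) : False := by
  change cadj σ a b at h1
  change cadj σ b c at h2
  change cadj σ a c at h3
  have hn := hσ.ne a.j
  have ht := hσ.two a.j
  rcases h1 with ⟨h11, h12, h13, h14⟩ | ⟨h11, h12, h13⟩ | ⟨h11, h12, h13, h14⟩ <;>
  rcases h2 with ⟨h21, h22, h23, h24⟩ | ⟨h21, h22, h23⟩ | ⟨h21, h22, h23, h24⟩ <;>
  rcases h3 with ⟨h31, h32, h33, h34⟩ | ⟨h31, h32, h33⟩ | ⟨h31, h32, h33, h34⟩ <;>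
  first
    | omega
    | (exfalso; simp_all; done)
    | (exfalso; grind)
    | (have h5 : b.r = c.r := h13.symm.trans h33
       rw [h5] at h24
       exact hσ.ne _ (left_eq_add.mp h24))

instance : Nonempty (X σ hσ).V := ⟨⟨0, 0, 0, by simp⟩⟩

lemma X_two_zero (u : Vt R) (hu : u.i = 0) : Two (X σ hσ) u := by
  refine ⟨⟨u.j + 1, 0, u.r, by simp⟩, ⟨u.j - 1, 0, u.r, by simp⟩, ?_, ?_, ?_⟩
  · intro h
    have := congrArg Vt.j h
    simp only at this
    omega
  · exact Or.inl ⟨hu, rfl, rfl, Or.inl rfl⟩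
  · exact Or.inl ⟨hu, rfl, rfl, Or.inr (by simp)⟩

lemma X_two_iff (u : Vt R) : Two (X σ hσ) u ↔ (u.i : ℤ) ≤ max (u.j - 1) 0 := by
  constructor
  · rintro ⟨a, b, hab, ha, hb⟩
    by_contra hlt
    have hi : (u.i : ℤ) = u.j ∧ 1 ≤ u.i := by have := u.h; omega
    have key : ∀ v : Vt R, cadj σ u v → v.j = u.j ∧ v.i + 1 = u.i ∧ v.r = u.r := by
      rintro v (⟨h1, h2, h3, h4⟩ | ⟨h1, h2, h3⟩ | ⟨h1, h2, h3, h4⟩)
      · omega
      · have := v.h
        refine ⟨h1.symm, ?_, h2.symm⟩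
        omega
      · omega
    obtain ⟨h1, h2, h3⟩ := key a ha
    obtain ⟨h4, h5, h6⟩ := key b hb
    exact hab (Vt.ext (by omega) (by omega) (h3.trans h6.symm))
  · intro hle
    rcases Nat.eq_zero_or_pos u.i with h0 | h0
    · exact X_two_zero hσ u h0
    · refine ⟨⟨u.j, u.i + 1, u.r, by push_cast; omega⟩, ⟨u.j, u.i - 1, u.r, by have := u.h; omega⟩,
        ?_, ?_, ?_⟩
      · intro h
        have := congrArg Vt.i h
        simp only at this
        omega
      · exact Or.inr (Or.inl ⟨rfl, rfl, Or.inl rfl⟩)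
      · exact Or.inr (Or.inl ⟨rfl, rfl, Or.inr (by simp only; omega)⟩)

lemma X_iso0 (u : (X σ hσ).V) : ∃ v, (X σ hσ).G.Adj u v := by
  rcases Nat.eq_zero_or_pos u.i with h0 | h0
  · obtain ⟨a, b, -, h, -⟩ := X_two_zero hσ u h0
    exact ⟨a, h⟩
  · exact ⟨⟨u.j, u.i - 1, u.r, by have := u.h; omega⟩,
      Or.inr (Or.inl ⟨rfl, rfl, Or.inr (by simp only; omega)⟩)⟩

lemma X_nk (u v : (X σ hσ).V) (h : (X σ hσ).G.Adj u v) : Two (X σ hσ) u ∨ Two (X σ hσ) v := by
  rcases h with ⟨h1, h2, h3, h4⟩ | ⟨h1, h2, h3⟩ | ⟨h1, h2, h3, h4⟩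
  · exact Or.inl (X_two_zero hσ u h1)
  · have h5 := u.h
    have h6 := v.h
    rcases h3 with h3 | h3
    · left
      exact (X_two_iff hσ u).mpr (by omega)
    · right
      exact (X_two_iff hσ v).mpr (by omega)
  · exact Or.inl (X_two_zero hσ u h1)

lemma Ok.shift {σ : ℤ → R} (hσ : Ok σ) (m : ℤ) : Ok (fun j => σ (j + m)) :=
  ⟨fun _ => hσ.ne _, fun _ => hσ.two _⟩

/-- Removing the vertices of degree one shifts the rungs. -/
lemma X_prune : (X (fun j => σ (j + 1)) (hσ.shift 1)).Iso (prune (X σ hσ)) := by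
  let Φ : Vt R → (prune (X σ hσ)).V := fun u =>
    ⟨⟨u.j + 1, u.i, u.r, by have := u.h; omega⟩, (X_two_iff hσ _).mpr (by
      have := u.h
      simp only
      omega)⟩
  let Ψ : (prune (X σ hσ)).V → Vt R := fun u =>
    ⟨u.1.j - 1, u.1.i, u.1.r, (X_two_iff hσ _).mp u.2⟩
  refine ⟨⟨⟨Φ, Ψ, ?_, ?_⟩, ?_⟩⟩
  · intro u
    apply Vt.ext
    · change u.j + 1 - 1 = u.j
      ring
    · rfl
    · rfl
  · intro u
    apply Subtype.ext
    apply Vt.ext
    · change u.1.j - 1 + 1 = u.1.j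
      ring
    · rfl
    · rfl
  · intro u v
    change cadj σ (Φ u).1 (Φ v).1 ↔ cadj (fun j => σ (j + 1)) u v
    simp only [cadj, Φ]
    refine or_congr ?_ (or_congr ?_ ?_)
    · refine and_congr Iff.rfl (and_congr Iff.rfl (and_congr Iff.rfl ?_))
      omega
    · refine and_congr ?_ Iff.rfl
      omega
    · refine and_congr Iff.rfl (and_congr Iff.rfl (and_congr ?_ Iff.rfl))
      omega

lemma X_kk : (X σ hσ).k.k.Iso (X (fun j => σ (j + 1)) (hσ.shift 1)) :=
  iso_symm (iso_trans (X_prune hσ) (kk_iso (X_tf hσ) (X_iso0 hσ) (X_nk hσ)))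

lemma X_congr {σ τ : ℤ → R} (hσ : Ok σ) (hτ : Ok τ) (h : σ = τ) : (X σ hσ).Iso (X τ hτ) := by
  subst h
  exact iso_rfl _

lemma X_iter (m : ℕ) : (Gr.k^[2 * m] (X σ hσ)).Iso (X (fun j => σ (j + m)) (hσ.shift m)) := by
  induction m with
  | zero => exact X_congr _ _ (by funext j; simp)
  | succ m ih =>
    have h1 : 2 * (m + 1) = (2 * m + 1) + 1 := by ring
    rw [h1, Function.iterate_succ_apply', Function.iterate_succ_apply']
    refine iso_trans (iso_k (iso_k ih)) (iso_trans (X_kk (hσ.shift m)) (X_congr _ _ ?_))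
    funext j
    congr 1
    push_cast
    ring

/-- An isomorphism of the groups of rails. -/
lemma X_equiv {R' : Type} [AddCommGroup R'] {σ' : ℤ → R'} (hσ' : Ok σ') (e : R ≃+ R')
    (he : ∀ j, e (σ j) = σ' j) : (X σ hσ).Iso (X σ' hσ') := by
  refine ⟨⟨⟨fun u => ⟨u.j, u.i, e u.r, u.h⟩, fun u => ⟨u.j, u.i, e.symm u.r, u.h⟩, ?_, ?_⟩, ?_⟩⟩
  · intro u
    exact Vt.ext rfl rfl (e.symm_apply_apply _)
  · intro u
    exact Vt.ext rfl rfl (e.apply_symm_apply _)
  · intro u v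
    change cadj σ' ⟨u.j, u.i, e u.r, u.h⟩ ⟨v.j, v.i, e v.r, v.h⟩ ↔ cadj σ u v
    simp only [cadj]
    rw [← he u.j, ← map_add]
    simp only [EmbeddingLike.apply_eq_iff_eq]

/-- The comb is locally finite. -/
lemma X_locFin : (X σ hσ).LocFin := by
  intro u
  have hinj : Set.InjOn (fun v : Vt R => (v.j, v.i, v.r)) Set.univ := by
    intro a _ b _ h
    simp only [Prod.mk.injEq] at h
    exact Vt.ext h.1 h.2.1 h.2.2
  have hfin : ((Set.Icc (u.j - 1) (u.j + 1)) ×ˢ ((Set.Icc 0 (u.i + 1)) ×ˢ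
      ({u.r, u.r + σ u.j} : Set R))).Finite :=
    (Set.finite_Icc _ _).prod ((Set.finite_Icc _ _).prod (Set.toFinite _))
  refine (hfin.preimage (f := fun v : Vt R => (v.j, v.i, v.r)) (hinj.mono (Set.subset_univ _))).subset ?_
  rintro v (rfl | hv)
  · refine ⟨⟨by simp, by simp⟩, ⟨by simp, by simp⟩, by simp⟩
  · change cadj σ u v at hv
    rcases hv with ⟨h1, h2, h3, h4⟩ | ⟨h1, h2, h3⟩ | ⟨h1, h2, h3, h4⟩
    · refine ⟨⟨?_, ?_⟩, ⟨Nat.zero_le _, ?_⟩, Or.inl h3.symm⟩ <;> simp only <;> omega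
    · refine ⟨⟨?_, ?_⟩, ⟨Nat.zero_le _, ?_⟩, Or.inl h2.symm⟩ <;> simp only <;> omega
    · refine ⟨⟨?_, ?_⟩, ⟨Nat.zero_le _, ?_⟩, Or.inr h4⟩ <;> simp only <;> omega

/-- The comb is connected if the rungs generate the group of rails. -/
lemma X_conn (hgen : ∀ r : R, r ∈ AddSubgroup.closure (Set.range σ)) : (X σ hσ).G.Connected := by
  let pt : ℤ → R → (X σ hσ).V := fun j r => ⟨j, 0, r, by simp⟩
  have h1 : ∀ u : Vt R, (X σ hσ).G.Reachable u (pt u.j u.r) := by
    rintro ⟨j, i, r, h⟩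
    induction i with
    | zero => exact SimpleGraph.Reachable.refl _
    | succ i ih =>
      have h' : (i : ℤ) ≤ max j 0 := by push_cast at h; omega
      refine SimpleGraph.Reachable.trans (SimpleGraph.Adj.reachable ?_) (ih h')
      exact Or.inr (Or.inl ⟨rfl, rfl, Or.inr rfl⟩)
  have h2 : ∀ (j : ℤ) (r : R), (X σ hσ).G.Reachable (pt j r) (pt (j + 1) r) := fun j r =>
    SimpleGraph.Adj.reachable (Or.inl ⟨rfl, rfl, rfl, Or.inl rfl⟩)
  have h3 : ∀ (j : ℤ) (r : R), (X σ hσ).G.Reachable (pt j r) (pt 0 r) := by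
    intro j r
    induction j using Int.induction_on with
    | zero => exact SimpleGraph.Reachable.refl _
    | succ j ih => exact (h2 _ _).symm.trans ih
    | pred j ih =>
      have := h2 (-(j : ℤ) - 1) r
      rw [show -(j : ℤ) - 1 + 1 = -(j : ℤ) by ring] at this
      exact this.trans ih
  have h4 : ∀ (j : ℤ) (r : R), (X σ hσ).G.Reachable (pt 0 r) (pt 0 (r + σ j)) := by
    intro j r
    refine (h3 j r).symm.trans (SimpleGraph.Reachable.trans (SimpleGraph.Adj.reachable ?_) (h3 j _))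
    exact Or.inr (Or.inr ⟨rfl, rfl, rfl, rfl⟩)
  have h5 : ∀ g ∈ AddSubgroup.closure (Set.range σ), ∀ r : R,
      (X σ hσ).G.Reachable (pt 0 r) (pt 0 (r + g)) := by
    intro g hg
    induction hg using AddSubgroup.closure_induction with
    | mem x hx =>
      obtain ⟨j, rfl⟩ := hx
      exact h4 j
    | zero => intro r; rw [add_zero]
    | add x y _ _ hx hy => intro r; rw [← add_assoc]; exact (hx r).trans (hy _)
    | neg x _ hx =>
      intro r
      have := hx (r + -x)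
      rw [neg_add_cancel_right] at this
      exact this.symm
  have h6 : ∀ u : Vt R, (X σ hσ).G.Reachable u (pt 0 0) := by
    intro u
    have := h5 u.r (hgen _) 0
    rw [zero_add] at this
    exact (h1 u).trans ((h3 _ _).trans this.symm)
  exact ⟨fun u v => (h6 u).trans (h6 v).symm⟩

/-- A homomorphism of the groups of rails gives a triangular covering map. -/
lemma X_cover {R' : Type} [AddCommGroup R'] {σ' : ℤ → R'} (hσ' : Ok σ')
    (hc : (X σ hσ).G.Connected) (hc' : (X σ' hσ').G.Connected) (f : R →+ R')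
    (hf : ∀ j, f (σ j) = σ' j) :
    TriCover (X σ hσ) (X σ' hσ') (fun u => (⟨u.j, u.i, f u.r, u.h⟩ : Vt R')) := by
  have hom : ∀ u v : Vt R, cadj σ u v →
      cadj σ' ⟨u.j, u.i, f u.r, u.h⟩ ⟨v.j, v.i, f v.r, v.h⟩ := by
    rintro u v (⟨h1, h2, h3, h4⟩ | ⟨h1, h2, h3⟩ | ⟨h1, h2, h3, h4⟩)
    · exact Or.inl ⟨h1, h2, by simp only [h3], h4⟩
    · exact Or.inr (Or.inl ⟨h1, by simp only [h2], h3⟩)
    · exact Or.inr (Or.inr ⟨h1, h2, h3, by simp only [h4, map_add, hf]⟩)
  have hloc : ∀ u v : Vt R, v ∈ nbh (X σ hσ) u →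
      (v.r = u.r ∨ (v.j = u.j ∧ v.i = u.i ∧ v.r = u.r + σ u.j)) := by
    rintro u v (rfl | hv)
    · exact Or.inl rfl
    · change cadj σ u v at hv
      rcases hv with ⟨h1, h2, h3, h4⟩ | ⟨h1, h2, h3⟩ | ⟨h1, h2, h3, h4⟩
      · exact Or.inl h3.symm
      · exact Or.inl h2.symm
      · exact Or.inr ⟨h3.symm, by omega, h4⟩
  refine ⟨hc, hc', fun u v h => hom u v h, ?_, ?_⟩
  · intro u
    refine ⟨?_, ?_, ?_⟩
    · rintro v (rfl | hv)
      · exact Or.inl rfl
      · exact Or.inr (hom _ _ hv)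
    · intro a ha b hb hab
      have hab' : a.j = b.j ∧ a.i = b.i ∧ f a.r = f b.r :=
        Vt.ext_iff.mp (show (⟨a.j, a.i, f a.r, a.h⟩ : Vt R') = ⟨b.j, b.i, f b.r, b.h⟩ from hab)
      obtain ⟨e1, e2, e3⟩ := hab'
      refine Vt.ext e1 e2 ?_
      rcases hloc u a ha with h1 | ⟨h1, h2, h3⟩ <;> rcases hloc u b hb with h4 | ⟨h4, h5, h6⟩
      · rw [h1, h4]
      · exfalso
        rw [h1, h6, map_add, hf] at e3
        exact hσ'.ne _ (left_eq_add.mp e3)
      · exfalso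
        rw [h3, h4, map_add, hf] at e3
        exact hσ'.ne _ (left_eq_add.mp e3.symm)
      · rw [h3, h6]
    · rintro w (rfl | hw)
      · exact ⟨u, Or.inl rfl, rfl⟩
      · change cadj σ' _ w at hw
        rcases hw with ⟨h1, h2, h3, h4⟩ | ⟨h1, h2, h3⟩ | ⟨h1, h2, h3, h4⟩
        · refine ⟨⟨w.j, w.i, u.r, w.h⟩, Or.inr (Or.inl ⟨h1, h2, rfl, h4⟩), ?_⟩
          exact Vt.ext rfl rfl h3
        · refine ⟨⟨w.j, w.i, u.r, w.h⟩, Or.inr (Or.inr (Or.inl ⟨h1, rfl, h3⟩)), ?_⟩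
          exact Vt.ext rfl rfl h2
        · refine ⟨⟨w.j, w.i, u.r + σ u.j, w.h⟩, Or.inr (Or.inr (Or.inr ⟨h1, h2, h3, rfl⟩)), ?_⟩
          refine Vt.ext rfl rfl ?_
          simp only [map_add, hf]
          exact h4.symm
  · intro u a ha b hb
    refine ⟨fun h => hom a b h, ?_⟩
    intro h
    by_cases hau : a = u
    · subst hau
      rcases hb with rfl | hb
      · exact absurd h ((X σ' hσ').G.irrefl)
      · exact hb
    · by_cases hbu : b = u
      · subst hbu
        rcases ha with rfl | ha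
        · exact absurd rfl hau
        · exact ha.symm
      · exfalso
        have ha' : (X σ hσ).G.Adj u a := ha.resolve_left hau
        have hb' : (X σ hσ).G.Adj u b := hb.resolve_left hbu
        exact X_tf hσ' _ _ _ (hom u a ha') h (hom u b hb')

end comb

/-! ### A distinguishing property -/

/-- There is a vertex `x` which has a neighbour `y` of degree one, two other neighbours, and an edge
`x w`, `w ≠ y`, which is in no 4-cycle. -/
def Inv (A : Gr) : Prop := ∃ x y w w' : A.V, A.G.Adj x y ∧ (∀ z, A.G.Adj y z → z = x) ∧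
  A.G.Adj x w ∧ w ≠ y ∧ A.G.Adj x w' ∧ w' ≠ y ∧ w' ≠ w ∧
  ∀ a b, A.G.Adj w a → A.G.Adj a b → A.G.Adj b x → a = x ∨ b = w

lemma Inv_iso {A B : Gr} (h : A.Iso B) (hA : Inv A) : Inv B := by
  obtain ⟨φ⟩ := h
  obtain ⟨x, y, w, w', h1, h2, h3, h4, h5, h6, h7, h8⟩ := hA
  have e : ∀ u v, B.G.Adj (φ u) v ↔ A.G.Adj u (φ.symm v) := by
    intro u v
    have := φ.map_rel_iff (a := u) (b := φ.symm v)
    rwa [RelIso.apply_symm_apply] at this
  have e' : ∀ u v, B.G.Adj v (φ u) ↔ A.G.Adj (φ.symm v) u := by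
    intro u v
    rw [B.G.adj_comm, e, A.G.adj_comm]
  refine ⟨φ x, φ y, φ w, φ w', φ.map_rel_iff.mpr h1, ?_, φ.map_rel_iff.mpr h3,
    fun h => h4 (φ.injective h), φ.map_rel_iff.mpr h5, fun h => h6 (φ.injective h),
    fun h => h7 (φ.injective h), ?_⟩
  · intro z hz
    rw [e] at hz
    rw [← h2 _ hz, RelIso.apply_symm_apply]
  · intro a b ha hab hb
    rw [e] at ha
    rw [e'] at hb
    have hab' : A.G.Adj (φ.symm a) (φ.symm b) := φ.symm.map_rel_iff.mpr hab
    rcases h8 _ _ ha hab' hb with h | h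
    · left; rw [← h, RelIso.apply_symm_apply]
    · right; rw [← h, RelIso.apply_symm_apply]

/-- The rungs of the middle graph: direction `(1, 0)` before the position `c` and direction
`(0, 1)` from `c` on. -/
def τ (c : ℤ) : ℤ → ZMod 2 × ZMod 2 := fun j => if j < c then (1, 0) else (0, 1)

lemma τ_ok (c : ℤ) : Ok (τ c) := by
  constructor
  · intro j
    unfold τ
    split_ifs <;> decide
  · intro j
    unfold τ
    split_ifs <;> decide

lemma Inv_true : Inv (X (τ 1) (τ_ok 1)) := by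
  refine ⟨(⟨1, 0, 0, by simp⟩ : Vt _), (⟨1, 1, 0, by simp⟩ : Vt _), (⟨0, 0, 0, by simp⟩ : Vt _),
    (⟨2, 0, 0, by simp⟩ : Vt _), Or.inr (Or.inl ⟨rfl, rfl, Or.inl rfl⟩), ?_,
    Or.inl ⟨rfl, rfl, rfl, Or.inr rfl⟩, ?_, Or.inl ⟨rfl, rfl, rfl, Or.inl rfl⟩, ?_, ?_, ?_⟩
  · rintro (z : Vt _) (⟨h1, h2, h3, h4⟩ | ⟨h1, h2, h3⟩ | ⟨h1, h2, h3, h4⟩)
    · simp at h1
    · have := z.h
      simp only at h1 h2 h3
      exact Vt.ext (by simp only; omega) (by simp only; omega) h2.symm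
    · simp at h1
  · intro h
    have := congrArg Vt.j h
    simp at this
  · intro h
    have := congrArg Vt.j h
    simp at this
  · intro h
    have := congrArg Vt.j h
    simp at this
  · intro (a : Vt _) (b : Vt _) ha hab hb
    have hτ0 : τ 1 0 = (1, 0) := rfl
    have hτ1 : τ 1 1 = (0, 1) := rfl
    have d1 : ((1, 0) : ZMod 2 × ZMod 2) ≠ (0, 1) := by decide
    have d2 : ((1, 0) : ZMod 2 × ZMod 2) ≠ 0 := by decide
    have d3 : ((0, 1) : ZMod 2 × ZMod 2) ≠ 0 := by decide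
    change cadj (τ 1) _ a at ha
    change cadj (τ 1) a b at hab
    have hb' : cadj (τ 1) (⟨1, 0, 0, by simp⟩ : Vt _) b := SimpleGraph.Adj.symm hb
    have hah := a.h
    have hbh := b.h
    -- the position of `b`
    by_cases hbj : b.j = 0
    · right
      rcases hb' with ⟨h1, h2, h3, h4⟩ | ⟨h1, h2, h3⟩ | ⟨h1, h2, h3, h4⟩
      · exact Vt.ext hbj h2 h3.symm
      · simp only at h1; omega
      · simp only at h3; omega
    by_cases haj : a.j = 1
    · left
      rcases ha with ⟨h1, h2, h3, h4⟩ | ⟨h1, h2, h3⟩ | ⟨h1, h2, h3, h4⟩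
      · exact Vt.ext haj h2 h3.symm
      · simp only at h1; omega
      · simp only at h3; omega
    exfalso
    have hb1 : b.j = 1 ∨ b.j = 2 := by
      rcases hb' with ⟨h1, h2, h3, h4⟩ | ⟨h1, h2, h3⟩ | ⟨h1, h2, h3, h4⟩
      · simp only at h4; omega
      · simp only at h1; omega
      · simp only at h3; omega
    have ha1 : a.j = 0 ∨ a.j = -1 := by
      rcases ha with ⟨h1, h2, h3, h4⟩ | ⟨h1, h2, h3⟩ | ⟨h1, h2, h3, h4⟩
      · simp only at h4; omega
      · simp only at h1; omega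
      · simp only at h3; omega
    have hab1 : a.j = 0 ∧ b.j = 1 ∧ a.r = b.r ∧ b.i = 0 ∧ a.i = 0 := by
      rcases hab with ⟨h1, h2, h3, h4⟩ | ⟨h1, h2, h3⟩ | ⟨h1, h2, h3, h4⟩
      · exact ⟨by omega, by omega, h3, h2, h1⟩
      · omega
      · omega
    obtain ⟨e1, e2, e3, e4, e5⟩ := hab1
    have har : a.r = (1, 0) := by
      rcases ha with ⟨h1, h2, h3, h4⟩ | ⟨h1, h2, h3⟩ | ⟨h1, h2, h3, h4⟩
      · simp only at h4; omega
      · simp only at h3; omega
      · simp only [zero_add] at h4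
        rw [h4, hτ0]
    have hbr : b.r = (0, 1) := by
      rcases hb' with ⟨h1, h2, h3, h4⟩ | ⟨h1, h2, h3⟩ | ⟨h1, h2, h3, h4⟩
      · simp only at h4; omega
      · simp only at h3; omega
      · simp only [zero_add] at h4
        rw [h4, hτ1]
    rw [har, hbr] at e3
    exact d1 e3

lemma Inv_false {c : ℤ} (hc : c ≤ 0) : ¬ Inv (X (τ c) (τ_ok c)) := by
  rintro ⟨(x : Vt _), (y : Vt _), (w : Vt _), (w' : Vt _), h1, h2, h3, h4, h5, h6, h7, h8⟩
  have hx := x.h
  have hy := y.h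
  have hw := w.h
  have hw' := w'.h
  have hτ : ∀ j : ℤ, 0 ≤ j → τ c j = (0, 1) := fun j hj => by
    unfold τ; rw [if_neg (by omega)]
  have hnt : ¬ ∃ a b : Vt (ZMod 2 × ZMod 2), a ≠ b ∧ cadj (τ c) y a ∧ cadj (τ c) y b := by
    rintro ⟨a, b, hab, ha, hb⟩
    exact hab ((h2 a ha).trans (h2 b hb).symm)
  have hy2 : ¬ ((y.i : ℤ) ≤ max (y.j - 1) 0) := fun h => hnt ((X_two_iff (τ_ok c) y).mpr h)
  have hyi : (y.i : ℤ) = y.j ∧ 1 ≤ y.i := by omega
  have hxy : x.j = y.j ∧ x.i + 1 = y.i ∧ x.r = y.r := by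
    rcases h1 with ⟨g1, g2, g3, g4⟩ | ⟨g1, g2, g3⟩ | ⟨g1, g2, g3, g4⟩
    · omega
    · exact ⟨g1, by omega, g2⟩
    · omega
  -- `x` is on the rail
  have hxi : x.i = 0 := by
    by_contra hxi
    have key : ∀ v : Vt (ZMod 2 × ZMod 2), cadj (τ c) x v → v ≠ y →
        v.j = x.j ∧ v.i + 1 = x.i ∧ v.r = x.r := by
      rintro v (⟨g1, g2, g3, g4⟩ | ⟨g1, g2, g3⟩ | ⟨g1, g2, g3, g4⟩) hv
      · omega
      · rcases g3 with g3 | g3
        · exact absurd (Vt.ext (by omega) (by omega) (g2.symm.trans hxy.2.2)) hv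
        · exact ⟨g1.symm, g3.symm, g2.symm⟩
      · omega
    obtain ⟨a1, a2, a3⟩ := key w h3 h4
    obtain ⟨b1, b2, b3⟩ := key w' h5 h6
    exact h7 (Vt.ext (by omega) (by omega) (b3.trans a3.symm))
  have hxj : x.j = 1 := by omega
  have ht : τ c x.j = (0, 1) := hτ _ (by omega)
  have hd : ((0, 1) : ZMod 2 × ZMod 2) ≠ 0 := by decide
  have hdd : ((0, 1) : ZMod 2 × ZMod 2) + (0, 1) = 0 := by decide
  rcases h3 with ⟨g1, g2, g3, g4⟩ | ⟨g1, g2, g3⟩ | ⟨g1, g2, g3, g4⟩
  · -- `w` is a neighbour on the rail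
    have hwj : 0 ≤ w.j := by omega
    rcases h8 (⟨w.j, 0, w.r + (0, 1), by simp⟩ : Vt _) (⟨x.j, 0, x.r + (0, 1), by simp⟩ : Vt _)
      (Or.inr (Or.inr ⟨g2, rfl, rfl, by simp only [hτ _ hwj]⟩))
      (Or.inl ⟨rfl, rfl, by simp only [g3], g4.symm⟩)
      (Or.inr (Or.inr ⟨rfl, g1, rfl, by
        simp only [ht, add_assoc, hdd, add_zero]⟩)) with h | h
    · have := congrArg Vt.j h
      simp only at this
      omega
    · have := congrArg Vt.j h
      simp only at this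
      omega
  · -- `w` is on the tooth
    apply h4
    exact Vt.ext (by omega) (by omega) (g2.symm.trans hxy.2.2)
  · -- `w` is the other end of the rung
    rw [ht] at g4
    have ht2 : τ c (x.j + 1) = (0, 1) := hτ _ (by omega)
    rcases h8 (⟨x.j + 1, 0, x.r + (0, 1), by simp⟩ : Vt _) (⟨x.j + 1, 0, x.r, by simp⟩ : Vt _)
      (Or.inl ⟨g2, rfl, g4, Or.inl (by simp only [g3])⟩)
      (Or.inr (Or.inr ⟨rfl, rfl, rfl, by simp only [ht2, add_assoc, hdd, add_zero]⟩))
      (Or.inl ⟨rfl, g1, rfl, Or.inr rfl⟩) with h | h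
    · have := congrArg Vt.j h
      simp only at this
      omega
    · have := congrArg Vt.j h
      simp only at this
      omega

/-! ### The tower for the even exponents -/

lemma one_ok : Ok (fun _ : ℤ => (1 : ZMod 2)) := ⟨fun _ => by decide, fun _ => by decide⟩

lemma lamp_ok : Ok (fun j : ℤ => Finsupp.single j (1 : ZMod 2)) := by
  constructor
  · intro j h
    exact absurd (Finsupp.single_eq_zero.mp h) (by decide)
  · intro j
    rw [← Finsupp.single_add]
    have : (1 : ZMod 2) + 1 = 0 := by decide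
    rw [this, Finsupp.single_zero]

/-- the bottom of the tower: two rails -/
abbrev Bot : Gr := X (fun _ : ℤ => (1 : ZMod 2)) one_ok
/-- the middle of the tower: four rails -/
abbrev Mid : Gr := X (τ 1) (τ_ok 1)
/-- the top of the tower: the rails are the finite sets of integers -/
noncomputable abbrev Top : Gr := X (fun j : ℤ => Finsupp.single j (1 : ZMod 2)) lamp_ok

lemma Bot_conn : Bot.G.Connected := by
  apply X_conn
  intro r
  have h : ∀ r : ZMod 2, r = 0 ∨ r = 1 := by decide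
  rcases h r with rfl | rfl
  · exact zero_mem _
  · exact AddSubgroup.subset_closure ⟨0, rfl⟩

lemma Mid_conn : Mid.G.Connected := by
  apply X_conn
  intro r
  have h : ∀ r : ZMod 2 × ZMod 2, r = 0 ∨ r = (1, 0) ∨ r = (0, 1) ∨ r = (1, 0) + (0, 1) := by decide
  have h1 : ((1, 0) : ZMod 2 × ZMod 2) ∈ AddSubgroup.closure (Set.range (τ 1)) :=
    AddSubgroup.subset_closure ⟨0, rfl⟩
  have h2 : ((0, 1) : ZMod 2 × ZMod 2) ∈ AddSubgroup.closure (Set.range (τ 1)) :=
    AddSubgroup.subset_closure ⟨1, rfl⟩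
  rcases h r with rfl | rfl | rfl | rfl
  · exact zero_mem _
  · exact h1
  · exact h2
  · exact add_mem h1 h2

lemma Top_conn : Top.G.Connected := by
  apply X_conn
  intro r
  induction r using Finsupp.induction_linear with
  | zero => exact zero_mem _
  | add f g hf hg => exact add_mem hf hg
  | single a b =>
    have h : ∀ r : ZMod 2, r = 0 ∨ r = 1 := by decide
    rcases h b with rfl | rfl
    · rw [Finsupp.single_zero]; exact zero_mem _
    · exact AddSubgroup.subset_closure ⟨a, rfl⟩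

lemma Bot_iter (m : ℕ) : (Gr.k^[2 * m] Bot).Iso Bot :=
  iso_trans (X_iter one_ok m) (X_congr _ _ rfl)

lemma Top_iter (m : ℕ) : (Gr.k^[2 * m] Top).Iso Top := by
  refine iso_trans (X_iter lamp_ok m) (X_equiv _ _ (Finsupp.domCongr (Equiv.subRight (m : ℤ))) ?_)
  intro j
  simp [Finsupp.domCongr_apply]

lemma Mid_iter {m : ℕ} (hm : 1 ≤ m) : ¬ (Gr.k^[2 * m] Mid).Iso Mid := by
  intro h
  have h1 := iso_trans (iso_symm h) (X_iter (τ_ok 1) m)
  have h2 : (fun j => τ 1 (j + m)) = τ (1 - m) := by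
    funext j
    unfold τ
    have : j + (m : ℤ) < 1 ↔ j < 1 - (m : ℤ) := by omega
    simp only [this]
  have h3 := iso_trans h1 (X_congr _ (τ_ok (1 - m)) h2)
  exact Inv_false (by omega) (Inv_iso h3 Inv_true)

/-! ### The tori for the odd exponents -/

lemma T_odd {p q : ℕ} (hp : 4 ≤ p) (hq : 4 ≤ q) (m : ℕ) :
    (Gr.k^[2 * m + 1] (T p q hp hq)).Iso (T q p hq hp) := by
  induction m with
  | zero => exact k_iso hp hq
  | succ m ih =>
    have h1 : 2 * (m + 1) + 1 = (2 * m + 1) + 1 + 1 := by ring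
    rw [h1, Function.iterate_succ_apply', Function.iterate_succ_apply']
    exact iso_trans (iso_k (iso_k ih)) (iso_trans (iso_k (k_iso hq hp)) (k_iso hp hq))

/-- the vertices of the torus graph -/
def Wequiv (p q : ℕ) : W p q ≃ Bool × ZMod p × ZMod q where
  toFun v := match v with
    | W.x i j => (true, i, j)
    | W.m i j => (false, i, j)
  invFun v := match v with
    | (true, i, j) => W.x i j
    | (false, i, j) => W.m i j
  left_inv v := by cases v <;> rfl
  right_inv v := by obtain ⟨b, i, j⟩ := v; cases b <;> rfl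

lemma T_card {p q : ℕ} (hp : 4 ≤ p) (hq : 4 ≤ q) : Nat.card (T p q hp hq).V = 2 * (p * q) := by
  change Nat.card (W p q) = _
  rw [Nat.card_congr (Wequiv p q), Nat.card_prod, Nat.card_prod, Nat.card_zmod, Nat.card_zmod]
  simp

lemma T_fin {p q : ℕ} (hp : 4 ≤ p) (hq : 4 ≤ q) : Finite (T p q hp hq).V := by
  have hnp : NeZero p := ⟨by omega⟩
  have hnq : NeZero q := ⟨by omega⟩
  exact Finite.of_equiv _ (Wequiv p q).symm

lemma T_ne {p : ℕ} (hp : 5 ≤ p) : ¬ (T p 4 (by omega) le_rfl).Iso (T 4 p le_rfl (by omega)) :=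
  fun h => P4_false hp le_rfl (P4_iso (iso_symm h) (P4_true (by omega)))

/-- **Both implications of the problem fail for every exponent.**

(1) For every `d ≥ 2` there are `d`-sheeted triangular covering maps `A → B` and `C → D` between
finite connected graphs such that for all odd `n`: `kⁿ A ≅ A`, `kⁿ B ≇ B`, `kⁿ C ≇ C`, `kⁿ D ≅ D`.

(2) There are triangular covering maps `A → B → C` between connected locally finite graphs such
that for all even `n ≥ 2`: `kⁿ A ≅ A`, `kⁿ B ≇ B`, `kⁿ C ≅ C`.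

(3) Hence for every `n ≥ 1` neither of `kⁿ A ≅ A`, `kⁿ B ≅ B` implies the other one for
triangular covering maps `A → B` between connected locally finite graphs. -/
theorem result :
    (∀ d : ℕ, 2 ≤ d → ∃ (A B C D : Gr) (p : A.V → B.V) (q : C.V → D.V),
      Finite A.V ∧ Finite B.V ∧ Finite C.V ∧ Finite D.V ∧
      TriCover A B p ∧ TriCover C D q ∧
      Nat.card A.V = d * Nat.card B.V ∧ Nat.card C.V = d * Nat.card D.V ∧
      ∀ n : ℕ, Odd n →
        (Gr.k^[n] A).Iso A ∧ ¬ (Gr.k^[n] B).Iso B ∧ ¬ (Gr.k^[n] C).Iso C ∧ (Gr.k^[n] D).Iso D) ∧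
    (∃ (A B C : Gr) (p : A.V → B.V) (q : B.V → C.V), A.LocFin ∧ B.LocFin ∧ C.LocFin ∧
      TriCover A B p ∧ TriCover B C q ∧
      ∀ n : ℕ, Even n → 0 < n →
        (Gr.k^[n] A).Iso A ∧ ¬ (Gr.k^[n] B).Iso B ∧ (Gr.k^[n] C).Iso C) ∧
    (∀ n : ℕ, 1 ≤ n →
      (∃ (A B : Gr) (p : A.V → B.V), A.LocFin ∧ B.LocFin ∧ TriCover A B p ∧
        (Gr.k^[n] A).Iso A ∧ ¬ (Gr.k^[n] B).Iso B) ∧
      (∃ (A B : Gr) (p : A.V → B.V), A.LocFin ∧ B.LocFin ∧ TriCover A B p ∧
        ¬ (Gr.k^[n] A).Iso A ∧ (Gr.k^[n] B).Iso B)) := by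
  have h1 : ∀ d : ℕ, 2 ≤ d → ∃ (A B C D : Gr) (p : A.V → B.V) (q : C.V → D.V),
      Finite A.V ∧ Finite B.V ∧ Finite C.V ∧ Finite D.V ∧
      TriCover A B p ∧ TriCover C D q ∧
      Nat.card A.V = d * Nat.card B.V ∧ Nat.card C.V = d * Nat.card D.V ∧
      ∀ n : ℕ, Odd n →
        (Gr.k^[n] A).Iso A ∧ ¬ (Gr.k^[n] B).Iso B ∧ ¬ (Gr.k^[n] C).Iso C ∧
          (Gr.k^[n] D).Iso D := by
    intro d hd
    have hd4 : 5 ≤ 4 * d := by omega
    have hd4' : 4 ≤ 4 * d := by omega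
    refine ⟨T (4 * d) (4 * d) hd4' hd4', T (4 * d) 4 hd4' le_rfl, T 4 (4 * d) le_rfl hd4',
      T 4 4 le_rfl le_rfl, red (Dvd.intro d rfl), red (Dvd.intro d rfl), T_fin _ _, T_fin _ _,
      T_fin _ _, T_fin _ _, red_cover _ _ _ _, red_cover _ _ _ _, ?_, ?_, ?_⟩
    · rw [T_card, T_card]; ring
    · rw [T_card, T_card]; ring
    · rintro n ⟨m, rfl⟩
      refine ⟨T_odd _ _ _, fun h => ?_, fun h => ?_, T_odd _ _ _⟩
      · exact T_ne hd4 (iso_trans (iso_symm h) (T_odd _ _ _))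
      · exact T_ne hd4 (iso_trans (iso_symm (T_odd _ _ _)) h)
  have hc1 : TriCover Top Mid _ := X_cover lamp_ok (τ_ok 1) Top_conn Mid_conn
    (Finsupp.linearCombination (ZMod 2) (τ 1)).toAddMonoidHom (by
      intro j
      simp)
  have hc2 : TriCover Mid Bot _ := X_cover (τ_ok 1) one_ok Mid_conn Bot_conn
    (AddMonoidHom.fst _ _ + AddMonoidHom.snd _ _) (by
      intro j
      unfold τ
      split_ifs <;> simp)
  have h2 : ∀ n : ℕ, Even n → 0 < n →
        (Gr.k^[n] Top).Iso Top ∧ ¬ (Gr.k^[n] Mid).Iso Mid ∧ (Gr.k^[n] Bot).Iso Bot := by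
    rintro n hn h0
    obtain ⟨m, rfl⟩ := hn.exists_two_nsmul
    rw [smul_eq_mul] at h0 ⊢
    exact ⟨Top_iter m, Mid_iter (by omega), Bot_iter m⟩
  refine ⟨h1, ⟨Top, Mid, Bot, _, _, X_locFin _, X_locFin _, X_locFin _, hc1, hc2, h2⟩, ?_⟩
  intro n hn
  rcases Nat.even_or_odd n with he | ho
  · obtain ⟨a1, a2, a3⟩ := h2 n he hn
    exact ⟨⟨Top, Mid, _, X_locFin _, X_locFin _, hc1, a1, a2⟩,
      ⟨Mid, Bot, _, X_locFin _, X_locFin _, hc2, a2, a3⟩⟩
  · obtain ⟨A, B, C, D, p, q, fA, fB, fC, fD, hp, hq, -, -, h⟩ := h1 2 le_rfl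
    obtain ⟨b1, b2, b3, b4⟩ := h n ho
    exact ⟨⟨A, B, p, fun v => Set.toFinite _, fun v => Set.toFinite _, hp, b1, b2⟩,
      ⟨C, D, q, fun v => Set.toFinite _, fun v => Set.toFinite _, hq, b3, b4⟩⟩

end Pool.Agent.Results.MP_3c8d56_co.EveryExponent
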